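import Pool.Agent.Helper18.FM.GoalsB
import Pool.Agent.Helper29.HL.HSP
import Pool.Agent.Helper57.HX.Sdb
import Pool.Agent.Helper57.HX.Wcc

/-!
# FM-FTB: the trace bound for the complement, and nonpositive curvature on the image of `X`
-/

open Complex Metric Set Filter Topology MeasureTheory
open scoped ContDiff ComplexConjugate ComplexOrder Manifold Matrix

namespace Pool.Agent.Helper22.FM.FTB

open Pool.Agent.Helper95.Lin Pool.Agent.Helper16.Abund Pool.Agent.Helper92.Orb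
  Pool.Agent.Helper10.SP Pool.Agent.Helper95.RK Pool.Agent.Helper57.HS
  Pool.Agent.Helper15.HS Pool.Agent.Helper15.GS Pool.Agent.Helper57.RBC Pool.Agent.Helper82.HB
open Pool.Agent.Helper10.RBC (dn)
open Pool.Agent.Helper29.HB (WL)
open Pool.Agent.Helper29.HL
open Pool.Agent.Helper57.HX (fac)
open Pool.Agent.Helper62.HS (frq frq_nonneg frq_eq frq_ct frq_mul)
open Pool.Agent.Helper56.HS.DBZ (contM cont_trace trace_nonneg)
open Pool.Agent.Helper94.GS (psd_trace)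
open Pool.Agent.Helper25.HS (TT)
open Pool.Agent.Helper18.FM

universe u

/-! ## Linear algebra -/

theorem tr_mul_le {a : ℕ} {P N : Matrix (Fin a) (Fin a) ℂ} (hP : P.PosSemidef)
    (hN : N.PosSemidef) : (Matrix.trace (P * N)).re ≤ P.trace.re * N.trace.re := by
  have h := trace_nonneg (psd_trace hP) hN
  rw [Matrix.sub_mul, Matrix.trace_sub, Matrix.smul_mul, Matrix.one_mul, Matrix.trace_smul,
    smul_eq_mul, Complex.sub_re, Complex.re_ofReal_mul] at h
  linarith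

theorem tr_cs {a b : ℕ} (A : Matrix (Fin a) (Fin b) ℂ) (B : Matrix (Fin b) (Fin a) ℂ) :
    ‖Matrix.trace (A * B)‖ ≤ √(frq A) * √(frq B) := by
  have h1 : ‖Matrix.trace (A * B)‖ ≤ ∑ p : Fin a × Fin b, ‖A p.1 p.2‖ * ‖B p.2 p.1‖ := by
    rw [Matrix.trace, Fintype.sum_prod_type]
    refine (norm_sum_le _ _).trans (Finset.sum_le_sum fun i _ => ?_)
    rw [Matrix.diag_apply, Matrix.mul_apply]
    refine (norm_sum_le _ _).trans (Finset.sum_le_sum fun j _ => ?_)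
    rw [norm_mul]
  have hA : ∑ p : Fin a × Fin b, ‖A p.1 p.2‖ ^ 2 = frq A := by
    unfold frq
    rw [Fintype.sum_prod_type]
  have hB : ∑ p : Fin a × Fin b, ‖B p.2 p.1‖ ^ 2 = frq B := by
    unfold frq
    rw [Fintype.sum_prod_type, Finset.sum_comm]
  have h2 := Finset.sum_mul_sq_le_sq_mul_sq (Finset.univ : Finset (Fin a × Fin b))
    (fun p => ‖A p.1 p.2‖) (fun p => ‖B p.2 p.1‖)
  rw [hA, hB] at h2
  refine h1.trans ?_
  rw [← Real.sqrt_mul (frq_nonneg A)]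
  exact Real.le_sqrt_of_sq_le h2

theorem frq_re {a b : ℕ} (M : Matrix (Fin a) (Fin b) ℂ) : (M * Mᴴ).trace.re = frq M := by
  rw [← frq_eq, Complex.ofReal_re]

theorem frq_w {n m : ℕ} {χ : Matrix (Fin n) (Fin n) ℂ} (hχ : χ.PosSemidef)
    (w : Matrix (Fin m) (Fin n) ℂ) :
    frq (w * χ) ≤ χ.trace.re * (Matrix.trace (w * χ * wᴴ)).re := by
  obtain ⟨S, hS⟩ := fac hχ
  have e1 : w * χ = (w * Sᴴ) * S := by rw [hS, Matrix.mul_assoc]
  have e2 : (Matrix.trace (w * χ * wᴴ)).re = frq (w * Sᴴ) := by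
    rw [← frq_re, Matrix.conjTranspose_mul, Matrix.conjTranspose_conjTranspose, hS]
    simp only [Matrix.mul_assoc]
  have e3 : χ.trace.re = frq S := by
    rw [← frq_ct, ← frq_re, Matrix.conjTranspose_conjTranspose, hS]
  rw [e2, e3, e1, mul_comm (frq S)]
  exact frq_mul _ _

theorem G_le {n m : ℕ} {χ K : Matrix (Fin n) (Fin n) ℂ} {h : Matrix (Fin m) (Fin m) ℂ}
    (hχ : χ.PosSemidef) (hK : K.PosSemidef) (hh : h.IsHermitian)
    (σ : Matrix (Fin n) (Fin m) ℂ) (ε : ℝ) :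
    (Matrix.trace (((ε : ℂ) • (h * σᴴ * K)) * χ * ((ε : ℂ) • (h * σᴴ * K))ᴴ)).re ≤
      (ε * (Matrix.trace (χ * K)).re) *
        (Matrix.trace (((ε : ℂ) • (h * σᴴ * K * σ)) * h)).re := by
  obtain ⟨z, hz⟩ := fac hK
  have hKh : Kᴴ = K := hK.isHermitian.eq
  have e1 : ((ε : ℂ) • (h * σᴴ * K))ᴴ = (ε : ℂ) • (K * σ * h) := by
    rw [Matrix.conjTranspose_smul, Matrix.conjTranspose_mul, Matrix.conjTranspose_mul, hKh,
      Matrix.conjTranspose_conjTranspose, hh.eq]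
    congr 1
    · simp
    · rw [Matrix.mul_assoc]
  have hP : (z * χ * zᴴ).PosSemidef := hχ.mul_mul_conjTranspose_same z
  have hN : ((z * σ * h) * (z * σ * h)ᴴ).PosSemidef := Matrix.posSemidef_self_mul_conjTranspose _
  have h1 := tr_mul_le hP hN
  have e2 : Matrix.trace ((z * χ * zᴴ) * ((z * σ * h) * (z * σ * h)ᴴ)) =
      Matrix.trace (h * σᴴ * K * χ * (K * σ * h)) := by
    rw [Matrix.conjTranspose_mul, Matrix.conjTranspose_mul, hh.eq, hz]
    have e3 : z * χ * zᴴ * (z * σ * h * (h * (σᴴ * zᴴ))) =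
        (z * χ * zᴴ * (z * σ * h)) * (h * (σᴴ * zᴴ)) := by simp only [Matrix.mul_assoc]
    rw [e3, Matrix.trace_mul_comm]
    simp only [Matrix.mul_assoc]
  have e4 : Matrix.trace (z * χ * zᴴ) = Matrix.trace (χ * K) := by
    rw [Matrix.mul_assoc, Matrix.trace_mul_comm, Matrix.mul_assoc, hz]
  have e5 : Matrix.trace ((z * σ * h) * (z * σ * h)ᴴ) =
      Matrix.trace (h * σᴴ * K * σ * h) := by
    rw [Matrix.trace_mul_comm, Matrix.conjTranspose_mul, Matrix.conjTranspose_mul, hh.eq, hz]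
    simp only [Matrix.mul_assoc]
  rw [e2, e4, e5] at h1
  rw [e1, Matrix.smul_mul, Matrix.smul_mul, Matrix.mul_smul, smul_smul, Matrix.trace_smul,
    Matrix.smul_mul, Matrix.trace_smul, smul_eq_mul, smul_eq_mul, ← Complex.ofReal_mul,
    Complex.re_ofReal_mul, Complex.re_ofReal_mul]
  have h2 := mul_le_mul_of_nonneg_left h1 (mul_self_nonneg ε)
  refine h2.trans (le_of_eq ?_)
  ring

/-- The algebra of the twist. -/
theorem twist {n m : ℕ} {χ K : Matrix (Fin n) (Fin n) ℂ} {h : Matrix (Fin m) (Fin m) ℂ}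
    (hχ : χ.PosSemidef) (hK : K.PosSemidef) (hh : h.PosSemidef) (σ : Matrix (Fin n) (Fin m) ℂ)
    (w : Matrix (Fin m) (Fin n) ℂ) (B : Matrix (Fin n) (Fin m) ℂ)
    (V : Matrix (Fin n) (Fin m) ℂ) (hV : V = (1 - B * w) * σ)
    (N : Matrix (Fin n) (Fin n) ℂ) (hN : N = K * (V * h * Vᴴ) * K) :
    (Matrix.trace (χ * ((1 - B * w)ᴴ * K * (1 - B * w)) * (σ * h * σᴴ) *
        ((1 - B * w)ᴴ * K * (1 - B * w)))).re ≤
      (Matrix.trace (χ * K * (V * h * Vᴴ) * K)).re +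
      (2 * (√(frq (w * χ)) * √(frq (N * B))) +
        (Matrix.trace (w * χ * wᴴ)).re * (Matrix.trace (Bᴴ * N * B)).re) := by
  have hNp : N.PosSemidef := by
    have h1 := (hh.mul_mul_conjTranspose_same V).mul_mul_conjTranspose_same K
    rw [hK.isHermitian.eq] at h1
    rw [hN]
    exact h1
  have e1 : Matrix.trace (χ * ((1 - B * w)ᴴ * K * (1 - B * w)) * (σ * h * σᴴ) *
        ((1 - B * w)ᴴ * K * (1 - B * w))) =
      Matrix.trace ((1 - B * w) * χ * (1 - B * w)ᴴ * N) := by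
    have e2 : χ * ((1 - B * w)ᴴ * K * (1 - B * w)) * (σ * h * σᴴ) *
        ((1 - B * w)ᴴ * K * (1 - B * w)) =
        (χ * (1 - B * w)ᴴ * N) * (1 - B * w) := by
      rw [hN, hV, Matrix.conjTranspose_mul]
      simp only [Matrix.mul_assoc]
    rw [e2, Matrix.trace_mul_comm]
    simp only [Matrix.mul_assoc]
  have e3 : (1 - B * w) * χ * (1 - B * w)ᴴ * N = χ * N - B * (w * χ) * N -
      (χ * wᴴ * Bᴴ * N) + B * (w * χ * wᴴ) * Bᴴ * N := by
    rw [Matrix.conjTranspose_sub, Matrix.conjTranspose_one, Matrix.conjTranspose_mul]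
    simp only [Matrix.sub_mul, Matrix.mul_sub, Matrix.one_mul, Matrix.mul_one, Matrix.mul_assoc]
    abel
  have e4 : Matrix.trace (χ * wᴴ * Bᴴ * N) = conj (Matrix.trace (B * (w * χ) * N)) := by
    have e5 : conj (Matrix.trace (B * (w * χ) * N)) = Matrix.trace ((B * (w * χ) * N)ᴴ) := by
      rw [Matrix.trace_conjTranspose]
      rfl
    rw [e5, Matrix.conjTranspose_mul, Matrix.conjTranspose_mul, Matrix.conjTranspose_mul,
      hNp.isHermitian.eq, hχ.isHermitian.eq, Matrix.trace_mul_comm]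
  have e6 : Matrix.trace ((1 - B * w) * χ * (1 - B * w)ᴴ * N) =
      Matrix.trace (χ * N) - Matrix.trace (B * (w * χ) * N) -
      Matrix.trace (χ * wᴴ * Bᴴ * N) + Matrix.trace (B * (w * χ * wᴴ) * Bᴴ * N) := by
    rw [e3]
    simp only [Matrix.trace_add, Matrix.trace_sub]
  rw [e1, e6, e4]
  have e7 : Matrix.trace (χ * N) = Matrix.trace (χ * K * (V * h * Vᴴ) * K) := by
    rw [hN]
    simp only [Matrix.mul_assoc]
  have e8 : Matrix.trace (B * (w * χ) * N) = Matrix.trace ((w * χ) * (N * B)) := by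
    rw [Matrix.mul_assoc, Matrix.trace_mul_comm, Matrix.mul_assoc]
  have e9 : Matrix.trace (B * (w * χ * wᴴ) * Bᴴ * N) =
      Matrix.trace ((w * χ * wᴴ) * (Bᴴ * N * B)) := by
    have e10 : B * (w * χ * wᴴ) * Bᴴ * N = B * ((w * χ * wᴴ) * (Bᴴ * N)) := by
      simp only [Matrix.mul_assoc]
    rw [e10, Matrix.trace_mul_comm]
    simp only [Matrix.mul_assoc]
  rw [e7, e8, e9]
  have h1 := tr_cs (w * χ) (N * B)
  have h2 := tr_mul_le (hχ.mul_mul_conjTranspose_same w) (hNp.conjTranspose_mul_mul_same B)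
  have h3 := Complex.abs_re_le_norm (Matrix.trace ((w * χ) * (N * B)))
  have h4 := (abs_le.1 h3).1
  simp only [Complex.add_re, Complex.sub_re, Complex.conj_re]
  linarith

/-! ## The curvature terms -/

theorem nkk_crv {n m : ℕ} {σ : Cn n → Matrix (Fin n) (Fin m) ℂ}
    {h : Cn n → Matrix (Fin m) (Fin m) ℂ} {C : Fin m → Fin m → Cn n → Matrix (Fin m) (Fin m) ℂ}
    {x : Cn n}
    (cur : ∀ k l, RE h k l x = ∑ a, ∑ b, (σ x k a * conj (σ x l b)) • C a b x)
    (K : Matrix (Fin n) (Fin n) ℂ) :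
    NKK σ h K x = CRV h C ((σ x)ᴴ * K * σ x) x := by
  unfold NKK CRV
  congr 1
  have e1 : ∀ k l, Matrix.trace (σ x * (RE h k l x * h x) * (σ x)ᴴ * K) =
      ∑ a, ∑ b, (σ x k a * conj (σ x l b)) *
        Matrix.trace (C a b x * h x * ((σ x)ᴴ * K * σ x)) := by
    intro k l
    have e2 : Matrix.trace (σ x * (RE h k l x * h x) * (σ x)ᴴ * K) =
        Matrix.trace (RE h k l x * (h x * ((σ x)ᴴ * K * σ x))) := by
      have e3 : σ x * (RE h k l x * h x) * (σ x)ᴴ * K =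
          σ x * (RE h k l x * h x * (σ x)ᴴ * K) := by simp only [Matrix.mul_assoc]
      rw [e3, Matrix.trace_mul_comm]
      simp only [Matrix.mul_assoc]
    rw [e2, cur]
    simp only [Finset.sum_mul, Matrix.smul_mul, Matrix.trace_sum,
      Matrix.trace_smul, smul_eq_mul, Matrix.mul_assoc]
  simp only [e1]
  have e4 : ∀ a b, ((σ x)ᴴ * K * σ x) b a = ∑ k, ∑ l, K l k * (σ x k a * conj (σ x l b)) := by
    intro a b
    rw [Matrix.mul_apply]
    refine Finset.sum_congr rfl fun k _ => ?_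
    rw [Matrix.mul_apply, Finset.sum_mul]
    refine Finset.sum_congr rfl fun l _ => ?_
    rw [Matrix.conjTranspose_apply]
    change conj (σ x l b) * K l k * σ x k a = _
    ring
  simp only [e4, Finset.mul_sum, Finset.sum_mul]
  have r1 : ∀ F : Fin n → Fin n → Fin m → Fin m → ℂ,
      ∑ k, ∑ l, ∑ a, ∑ b, F k l a b = ∑ a, ∑ b, ∑ k, ∑ l, F k l a b := by
    intro F
    calc ∑ k, ∑ l, ∑ a, ∑ b, F k l a b = ∑ k, ∑ a, ∑ l, ∑ b, F k l a b :=
          Finset.sum_congr rfl fun k _ => Finset.sum_comm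
      _ = ∑ a, ∑ k, ∑ l, ∑ b, F k l a b := Finset.sum_comm
      _ = ∑ a, ∑ k, ∑ b, ∑ l, F k l a b :=
          Finset.sum_congr rfl fun a _ => Finset.sum_congr rfl fun k _ => Finset.sum_comm
      _ = ∑ a, ∑ b, ∑ k, ∑ l, F k l a b :=
          Finset.sum_congr rfl fun a _ => Finset.sum_comm
  rw [r1]
  refine Finset.sum_congr rfl fun a _ => Finset.sum_congr rfl fun b _ =>
    Finset.sum_congr rfl fun k _ => Finset.sum_congr rfl fun l _ => ?_
  ring

theorem tt_crv {n m : ℕ} (h : Cn n → Matrix (Fin m) (Fin m) ℂ)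
    (C : Fin m → Fin m → Cn n → Matrix (Fin m) (Fin m) ℂ) (x : Cn n) (y : Fin m → ℂ)
    (Y : Matrix (Fin m) (Fin m) ℂ) (hY : ∀ a b, Y b a = conj (y b) * y a) :
    (TT (RC h C x) y y y y).re = - CRV h C Y x := by
  unfold TT CRV RC
  rw [← Complex.neg_re, ← Finset.sum_neg_distrib]
  congr 1
  have e1 : ∀ a b, Matrix.trace (C a b x * h x * Y) =
      ∑ i, ∑ j, (C a b x * h x) i j * (conj (y j) * y i) := by
    intro a b
    rw [Matrix.trace]
    refine Finset.sum_congr rfl fun i _ => ?_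
    rw [Matrix.diag_apply, Matrix.mul_apply]
    exact Finset.sum_congr rfl fun j _ => by rw [hY]
  simp only [e1, hY, Finset.mul_sum, ← Finset.sum_neg_distrib]
  have r1 : ∀ F : Fin m → Fin m → Fin m → Fin m → ℂ,
      ∑ k, ∑ l, ∑ a, ∑ b, F k l a b = ∑ a, ∑ b, ∑ k, ∑ l, F k l a b := by
    intro F
    calc ∑ k, ∑ l, ∑ a, ∑ b, F k l a b = ∑ k, ∑ a, ∑ l, ∑ b, F k l a b :=
          Finset.sum_congr rfl fun k _ => Finset.sum_comm
      _ = ∑ a, ∑ k, ∑ l, ∑ b, F k l a b := Finset.sum_comm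
      _ = ∑ a, ∑ k, ∑ b, ∑ l, F k l a b :=
          Finset.sum_congr rfl fun a _ => Finset.sum_congr rfl fun k _ => Finset.sum_comm
      _ = ∑ a, ∑ b, ∑ k, ∑ l, F k l a b :=
          Finset.sum_congr rfl fun a _ => Finset.sum_comm
  rw [r1]
  refine Finset.sum_congr rfl fun a _ => Finset.sum_congr rfl fun b _ =>
    Finset.sum_congr rfl fun k _ => Finset.sum_congr rfl fun l _ => ?_
  ring

/-! ## Analysis -/

/-- A function which is continuous jointly is bounded on bounded sets. -/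
theorem bdm {n m : ℕ} {T C : Set (Cn n)} (hCT : C ⊆ T) (hC : IsCompact C)
    {Φ : Cn n → Matrix (Fin m) (Fin m) ℂ → ℝ}
    (hΦ : ContinuousOn (fun q : Cn n × Matrix (Fin m) (Fin m) ℂ => Φ q.1 q.2) (T ×ˢ univ))
    (K : ℝ) : ∃ M : ℝ, 0 ≤ M ∧ ∀ x ∈ C, ∀ X : Matrix (Fin m) (Fin m) ℂ,
    (∀ a c, ‖X a c‖ ≤ K) → Φ x X ≤ M := by
  set Ψ : Cn n × (Fin m → Fin m → ℂ) → ℝ := fun q => Φ q.1 (Matrix.of q.2) with hΨ
  have hΨc : ContinuousOn Ψ (T ×ˢ univ) := hΦ
  set B : Set (Fin m → Fin m → ℂ) := Set.pi univ fun _ => Set.pi univ fun _ => closedBall 0 K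
  have hBc : IsCompact B := isCompact_univ_pi fun _ => isCompact_univ_pi fun _ =>
    isCompact_closedBall _ _
  have hCB : IsCompact (C ×ˢ B) := hC.prod hBc
  have hsub : C ×ˢ B ⊆ T ×ˢ univ := fun q hq => ⟨hCT hq.1, mem_univ _⟩
  obtain ⟨M, hM⟩ := hCB.exists_bound_of_continuousOn (hΨc.mono hsub)
  refine ⟨|M|, abs_nonneg M, fun x hx X hX => ?_⟩
  have mX : ((x, X) : Cn n × (Fin m → Fin m → ℂ)) ∈ C ×ˢ B := ⟨hx, fun a _ => fun c _ => by
    rw [mem_closedBall_zero_iff]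
    exact hX a c⟩
  have h2 := hM _ mX
  have e1 : Ψ ((x, X) : Cn n × (Fin m → Fin m → ℂ)) = Φ x X := rfl
  rw [e1, Real.norm_eq_abs] at h2
  exact ((le_abs_self _).trans h2).trans (le_abs_self M)

/-- A closed condition with an error controlled by `ε tr (χ Q⁻¹)` passes to the limit. -/
theorem lim_le {n m : ℕ} {T : Set (Cn n)} {G : Type u} [Group G]
    {R : G → Cn n → Cn n → Prop} {H : Cn n → Matrix (Fin n) (Fin n) ℂ}
    {σ : Cn n → Matrix (Fin n) (Fin m) ℂ} {h : Cn n → Matrix (Fin m) (Fin m) ℂ}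
    {χ : Cn n → Matrix (Fin n) (Fin n) ℂ} {c : ℝ} {ψ : Cn n → ℝ} (D : FDat T R H σ h χ c ψ)
    {κ : Cn n → ℝ} {X : Cn n → Matrix (Fin m) (Fin m) ℂ} {s : ℝ} {S N : ℕ → ℝ}
    {φ : ℕ → Cn n → ℝ} {H' : ℕ → Cn n → Matrix (Fin n) (Fin n) ℂ} {ε : ℕ → ℝ}
    {Q : ℕ → Cn n → Matrix (Fin n) (Fin n) ℂ} (hL : LimF T R κ H σ h χ X s S N φ H' ε Q)
    {Φ : Cn n → Matrix (Fin m) (Fin m) ℂ → ℝ}
    (hΦ : ContinuousOn (fun q : Cn n × Matrix (Fin m) (Fin m) ℂ => Φ q.1 q.2) (T ×ˢ univ))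
    (hb : ∀ C ⊆ T, IsCompact C → ∃ A B : ℝ, 0 ≤ A ∧ 0 ≤ B ∧ ∀ j, ∀ x ∈ C,
      Φ x (XS (ε j) σ h (Q j) x) ≤ A * √(ε j * (Matrix.trace (χ x * (Q j x)⁻¹)).re) +
        B * (ε j * (Matrix.trace (χ x * (Q j x)⁻¹)).re)) :
    ∀ x ∈ T, Φ x (X x) ≤ 0 := by
  have hQk : ∀ j, KEt T R (Q j) := fun j => (hL.seq.tke j).ket
  have hχc : ContinuousOn χ T := contM D.pf.smooth
  have he : ∀ j, ContinuousOn (fun x => ε j * (Matrix.trace (χ x * (Q j x)⁻¹)).re) T := fun j =>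
    continuousOn_const.mul (cont_trace hχc (contM (hQk j).smooth) fun y hy =>
      ((hQk j).posDef y hy).det_pos.ne')
  have he0 : ∀ j, ∀ x ∈ T, 0 ≤ ε j * (Matrix.trace (χ x * (Q j x)⁻¹)).re := fun j x hx =>
    mul_nonneg (hL.seq.eps j).le (trace_nonneg (D.pf.psd x hx)
      ((hQk j).posDef x hx).posSemidef.inv)
  have hZc : ∀ j, ContinuousOn (fun x => XS (ε j) σ h (Q j) x) T := fun j =>
    cofent fun a b => hL.wl.Zc j a b
  have hEc : ∀ j, ContinuousOn (fun x => max 0 (Φ x (XS (ε j) σ h (Q j) x))) T := by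
    intro j
    have h1 : ContinuousOn (fun x => Φ x (XS (ε j) σ h (Q j) x)) T :=
      ContinuousOn.comp (f := fun x => (x, XS (ε j) σ h (Q j) x)) hΦ
        (continuousOn_id.prodMk (hZc j)) fun x hx => ⟨hx, mem_univ _⟩
    exact ContinuousOn.sup continuousOn_const h1
  refine Pool.Agent.Helper57.HX.wcc T _ _ X hL.wl Φ hΦ (fun j x => max 0 (Φ x (XS (ε j) σ h (Q j) x))) hEc
    (fun j x _ => le_max_right _ _) ?_
  intro C hCT hCc
  obtain ⟨A, B, hA, hB, hAB⟩ := hb C hCT hCc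
  obtain ⟨Kb, hKb⟩ := hL.wl.Zb C hCT hCc
  obtain ⟨M, hM0, hM⟩ := bdm hCT hCc hΦ Kb
  obtain ⟨K, hK0, hK⟩ := hL.wb
  refine Pool.Agent.Helper94.GS.tend hCc (E := K) (K := (A + B) ^ 2 + M ^ 2)
    (B := ∫ _x in C, (1 : ℝ)) (g := fun _ _ => (1 : ℝ))
    (a := fun j x => ε j * (Matrix.trace (χ x * (Q j x)⁻¹)).re)
    (fun j => (hL.wl.wc j).mono hCT) (fun j => continuousOn_const)
    (fun j => (he j).mono hCT) (fun j x hx => (hK j x (hCT hx)).1.le)
    (fun j x hx => (hK j x (hCT hx)).2) (fun j x hx => le_max_left _ _)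
    (fun j x hx => zero_le_one) (fun j x hx => he0 j x (hCT hx)) hK0.le ?_
    (fun j => le_rfl) (hL.ch C hCT hCc)
  intro j x hx
  have h0 := he0 j x (hCT hx)
  have h1 := hAB j x hx
  have h2 := hM x hx _ (hKb j x hx)
  generalize ε j * (Matrix.trace (χ x * (Q j x)⁻¹)).re = e at *
  generalize Φ x (XS (ε j) σ h (Q j) x) = f at *
  have hs : √e * √e = e := Real.mul_self_sqrt h0
  have hs0 : 0 ≤ √e := Real.sqrt_nonneg e
  have hf0 : 0 ≤ max 0 f := le_max_left _ _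
  rw [mul_one]
  rcases le_total e 1 with h3 | h3
  · have h4 : √e ≤ 1 := Real.sqrt_le_one.2 h3
    have h5 : e ≤ √e := by nlinarith
    have h6 : max 0 f ≤ (A + B) * √e := by
      refine max_le (by positivity) (h1.trans ?_)
      have := mul_le_mul_of_nonneg_left h5 hB
      linarith
    have h7 : max 0 f ^ 2 ≤ ((A + B) * √e) ^ 2 := pow_le_pow_left₀ hf0 h6 2
    have h8 : ((A + B) * √e) ^ 2 = (A + B) ^ 2 * e := by
      rw [mul_pow, sq (√e), hs]
    have h9 : 0 ≤ M ^ 2 * e := by positivity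
    nlinarith
  · have h6 : max 0 f ≤ M := max_le hM0 h2
    have h7 : max 0 f ^ 2 ≤ M ^ 2 := pow_le_pow_left₀ hf0 h6 2
    have h8 : M ^ 2 * 1 ≤ M ^ 2 * e := mul_le_mul_of_nonneg_left h3 (by positivity)
    have h9 : 0 ≤ (A + B) ^ 2 * e := by positivity
    nlinarith

/-- The algebra at a point. -/
theorem pt1 {n m : ℕ} {T : Set (Cn n)} {G : Type u} [Group G]
    {R : G → Cn n → Cn n → Prop} {H : Cn n → Matrix (Fin n) (Fin n) ℂ}
    {σ : Cn n → Matrix (Fin n) (Fin m) ℂ} {h : Cn n → Matrix (Fin m) (Fin m) ℂ}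
    {χ : Cn n → Matrix (Fin n) (Fin n) ℂ} {c : ℝ} {ψ : Cn n → ℝ} (D : FDat T R H σ h χ c ψ)
    {Γ : Fin m → Cn n → Matrix (Fin m) (Fin m) ℂ}
    {C : Fin m → Fin m → Cn n → Matrix (Fin m) (Fin m) ℂ} (hC : CF T σ h Γ C)
    {x : Cn n} (hx : x ∈ T) {Q : Cn n → Matrix (Fin n) (Fin n) ℂ} (hQ : (Q x).PosDef) (ε : ℝ)
    {K : Matrix (Fin n) (Fin n) ℂ} (hK : K.PosSemidef) (p₁ : Polynomial ℝ) :
    let Y : Matrix (Fin m) (Fin m) ℂ := XS ε σ h Q x
    let V : Matrix (Fin n) (Fin m) ℂ := σ x * (1 - Polynomial.aeval Y (Polynomial.X * p₁))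
    let B : Matrix (Fin n) (Fin m) ℂ := σ x * Polynomial.aeval Y p₁
    let M : Matrix (Fin n) (Fin n) ℂ := K * (V * h x * Vᴴ) * K;
    -(CRV h C (Vᴴ * K * V) x + (Matrix.trace (χ x * K * (V * h x * Vᴴ) * K)).re) ≤
      2 * (√((χ x).trace.re * (Matrix.trace (Y * h x)).re *
        (ε * (Matrix.trace (χ x * (Q x)⁻¹)).re)) * √(frq (M * B))) +
      (ε * (Matrix.trace (χ x * (Q x)⁻¹)).re) * (Matrix.trace (Y * h x)).re *
        (Matrix.trace (Bᴴ * M * B)).re := by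
  intro Y V B M
  have hh := D.sf.posDef x hx
  have hχ := D.pf.psd x hx
  set w : Matrix (Fin m) (Fin n) ℂ := (ε : ℂ) • (h x * (σ x)ᴴ * (Q x)⁻¹) with hw
  have hwY : w * σ x = Y := by
    show ((ε : ℂ) • (h x * (σ x)ᴴ * (Q x)⁻¹)) * σ x = (ε : ℂ) • (h x * (σ x)ᴴ * (Q x)⁻¹ * σ x)
    rw [Matrix.smul_mul]
  have hV : V = (1 - B * w) * σ x := by
    have e : (1 - B * w) * σ x = σ x - B * Y := by
      rw [Matrix.sub_mul, Matrix.one_mul, Matrix.mul_assoc B, hwY]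
    rw [e]
    show σ x * (1 - Polynomial.aeval Y (Polynomial.X * p₁)) = σ x - σ x * Polynomial.aeval Y p₁ * Y
    rw [mul_comm Polynomial.X p₁, map_mul, Polynomial.aeval_X, Matrix.mul_sub, Matrix.mul_one,
      Matrix.mul_assoc]
  have h1 := D.trb x hx ((1 - B * w)ᴴ * K * (1 - B * w)) (hK.conjTranspose_mul_mul_same _)
  have h2 := twist hχ hK hh.posSemidef (σ x) w B V hV M rfl
  have e1 : (σ x)ᴴ * ((1 - B * w)ᴴ * K * (1 - B * w)) * σ x = Vᴴ * K * V := by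
    rw [hV, Matrix.conjTranspose_mul]
    simp only [Matrix.mul_assoc]
  rw [nkk_crv (hC.cur x hx), e1] at h1
  have h3 := frq_w hχ w
  have h4 := G_le hχ hQ.inv.posSemidef hh.isHermitian (σ x) ε
  have e2 : (ε : ℂ) • (h x * (σ x)ᴴ * (Q x)⁻¹ * σ x) = Y := rfl
  rw [e2, ← hw] at h4
  have hχ0 : 0 ≤ (χ x).trace.re := (Complex.nonneg_iff.1 hχ.trace_nonneg).1
  have hMp : M.PosSemidef := by
    have h5 := (hh.posSemidef.mul_mul_conjTranspose_same V).mul_mul_conjTranspose_same K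
    rw [hK.isHermitian.eq] at h5
    exact h5
  have hBM : 0 ≤ (Matrix.trace (Bᴴ * M * B)).re :=
    (Complex.nonneg_iff.1 (hMp.conjTranspose_mul_mul_same B).trace_nonneg).1
  have h5 : frq (w * χ x) ≤ (χ x).trace.re * (Matrix.trace (Y * h x)).re *
      (ε * (Matrix.trace (χ x * (Q x)⁻¹)).re) := by
    refine h3.trans ((mul_le_mul_of_nonneg_left h4 hχ0).trans (le_of_eq ?_))
    ring
  have h6 : √(frq (w * χ x)) * √(frq (M * B)) ≤
      √((χ x).trace.re * (Matrix.trace (Y * h x)).re *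
        (ε * (Matrix.trace (χ x * (Q x)⁻¹)).re)) * √(frq (M * B)) :=
    mul_le_mul_of_nonneg_right (Real.sqrt_le_sqrt h5) (Real.sqrt_nonneg _)
  have h7 := mul_le_mul_of_nonneg_right h4 hBM
  have e3 : gS σ h x = σ x * h x * (σ x)ᴴ := rfl
  rw [e3] at h1
  linarith

/-- The algebra at a point, second part. -/
theorem pt2 {n m : ℕ} {T : Set (Cn n)} {G : Type u} [Group G]
    {R : G → Cn n → Cn n → Prop} {H : Cn n → Matrix (Fin n) (Fin n) ℂ}
    {σ : Cn n → Matrix (Fin n) (Fin m) ℂ} {h : Cn n → Matrix (Fin m) (Fin m) ℂ}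
    {χ : Cn n → Matrix (Fin n) (Fin n) ℂ} {c : ℝ} {ψ : Cn n → ℝ} (D : FDat T R H σ h χ c ψ)
    {Γ : Fin m → Cn n → Matrix (Fin m) (Fin m) ℂ}
    {C : Fin m → Fin m → Cn n → Matrix (Fin m) (Fin m) ℂ} (hC : CF T σ h Γ C)
    {x : Cn n} (hx : x ∈ T) {Q : Cn n → Matrix (Fin n) (Fin n) ℂ} (hQ : (Q x).PosDef) (ε : ℝ)
    (E : Matrix (Fin 1) (Fin m) ℂ) :
    let Y : Matrix (Fin m) (Fin m) ℂ := XS ε σ h Q x;
    -(CRV h C ((E * Y)ᴴ * (E * Y)) x) ≤
      (ε * (Matrix.trace (χ x * (Q x)⁻¹)).re) * ((Matrix.trace (Y * h x)).re * frq E *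
        (Matrix.trace ((E * Y) * h x * (E * Y)ᴴ)).re) := by
  intro Y
  have hh := D.sf.posDef x hx
  have hχ := D.pf.psd x hx
  set w : Matrix (Fin m) (Fin n) ℂ := (ε : ℂ) • (h x * (σ x)ᴴ * (Q x)⁻¹) with hw
  have hwY : w * σ x = Y := by
    show ((ε : ℂ) • (h x * (σ x)ᴴ * (Q x)⁻¹)) * σ x = (ε : ℂ) • (h x * (σ x)ᴴ * (Q x)⁻¹ * σ x)
    rw [Matrix.smul_mul]
  have hEw : (E * w) * σ x = E * Y := by rw [Matrix.mul_assoc, hwY]
  have h1 := D.trb x hx ((E * w)ᴴ * (E * w)) (Matrix.posSemidef_conjTranspose_mul_self _)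
  have e1 : (σ x)ᴴ * ((E * w)ᴴ * (E * w)) * σ x = (E * Y)ᴴ * (E * Y) := by
    rw [← hEw, Matrix.conjTranspose_mul (E * w)]
    simp only [Matrix.mul_assoc]
  rw [nkk_crv (hC.cur x hx), e1] at h1
  have e2 : Matrix.trace (χ x * ((E * w)ᴴ * (E * w)) * gS σ h x * ((E * w)ᴴ * (E * w))) =
      Matrix.trace (((E * w) * χ x * (E * w)ᴴ) * ((E * Y) * h x * (E * Y)ᴴ)) := by
    have e3 : gS σ h x = σ x * h x * (σ x)ᴴ := rfl
    have e4 : χ x * ((E * w)ᴴ * (E * w)) * gS σ h x * ((E * w)ᴴ * (E * w)) =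
        (χ x * (E * w)ᴴ * ((E * Y) * h x * (E * Y)ᴴ)) * (E * w) := by
      rw [e3, ← hEw, Matrix.conjTranspose_mul (E * w) (σ x)]
      simp only [Matrix.mul_assoc]
    rw [e4, Matrix.trace_mul_comm]
    simp only [Matrix.mul_assoc]
  have h2 := tr_mul_le (hχ.mul_mul_conjTranspose_same (E * w))
    (hh.posSemidef.mul_mul_conjTranspose_same (E * Y))
  have h3 : (Matrix.trace ((E * w) * χ x * (E * w)ᴴ)).re ≤
      (Matrix.trace (w * χ x * wᴴ)).re * frq E := by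
    have e5 : Matrix.trace ((E * w) * χ x * (E * w)ᴴ) =
        Matrix.trace ((w * χ x * wᴴ) * (Eᴴ * E)) := by
      rw [Matrix.conjTranspose_mul]
      have e6 : E * w * χ x * (wᴴ * Eᴴ) = E * (w * χ x * wᴴ * Eᴴ) := by
        simp only [Matrix.mul_assoc]
      rw [e6, Matrix.trace_mul_comm]
      simp only [Matrix.mul_assoc]
    rw [e5]
    refine (tr_mul_le (hχ.mul_mul_conjTranspose_same w)
      (Matrix.posSemidef_conjTranspose_mul_self E)).trans (le_of_eq ?_)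
    rw [Matrix.trace_mul_comm Eᴴ E, frq_re]
  have h4 := G_le hχ hQ.inv.posSemidef hh.isHermitian (σ x) ε
  have e7 : (ε : ℂ) • (h x * (σ x)ᴴ * (Q x)⁻¹ * σ x) = Y := rfl
  rw [e7, ← hw] at h4
  have h5 : 0 ≤ (Matrix.trace ((E * Y) * h x * (E * Y)ᴴ)).re :=
    (Complex.nonneg_iff.1 (hh.posSemidef.mul_mul_conjTranspose_same (E * Y)).trace_nonneg).1
  have h6 := mul_le_mul_of_nonneg_right h4 (frq_nonneg E)
  have h7 := mul_le_mul_of_nonneg_right (h3.trans h6) h5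
  rw [e2] at h1
  have h8 : (Matrix.trace ((E * w) * χ x * (E * w)ᴴ * ((E * Y) * h x * (E * Y)ᴴ))).re ≤ _ :=
    h2.trans h7
  have h9 : ε * (Matrix.trace (χ x * (Q x)⁻¹)).re * (Matrix.trace (Y * h x)).re * frq E *
      (Matrix.trace ((E * Y) * h x * (E * Y)ᴴ)).re =
      (ε * (Matrix.trace (χ x * (Q x)⁻¹)).re) * ((Matrix.trace (Y * h x)).re * frq E *
        (Matrix.trace ((E * Y) * h x * (E * Y)ᴴ)).re) := by ring
  linarith

theorem cfrq {α : Type*} [TopologicalSpace α] {S : Set α} {a b : ℕ}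
    {A : α → Matrix (Fin a) (Fin b) ℂ} (hA : ContinuousOn A S) :
    ContinuousOn (fun x => frq (A x)) S := by
  unfold frq
  exact continuousOn_finsetSum _ fun i _ => continuousOn_finsetSum _ fun j _ =>
    ((cent hA i j).norm).pow 2

theorem cre {α : Type*} [TopologicalSpace α] {S : Set α} {a : ℕ}
    {A : α → Matrix (Fin a) (Fin a) ℂ} (hA : ContinuousOn A S) :
    ContinuousOn (fun x => (Matrix.trace (A x)).re) S :=
  Complex.continuous_re.comp_continuousOn (ctrace hA)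

theorem ccrv {n m : ℕ} {T : Set (Cn n)} {h : Cn n → Matrix (Fin m) (Fin m) ℂ}
    {C : Fin m → Fin m → Cn n → Matrix (Fin m) (Fin m) ℂ} (hh : ContinuousOn h T)
    (hC : ∀ a b p q, ContinuousOn (fun x => C a b x p q) T)
    {A : Cn n × Matrix (Fin m) (Fin m) ℂ → Matrix (Fin m) (Fin m) ℂ}
    (hA : ContinuousOn A (T ×ˢ univ)) :
    ContinuousOn (fun q : Cn n × Matrix (Fin m) (Fin m) ℂ => CRV h C (A q) q.1) (T ×ˢ univ) := by
  unfold CRV
  refine Complex.continuous_re.comp_continuousOn ?_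
  refine continuousOn_finsetSum _ fun a _ => continuousOn_finsetSum _ fun b _ => ?_
  refine (cent hA b a).mul (ctrace ?_)
  exact cmul (cmul (clift (cofent fun p q => hC a b p q)) (clift hh)) hA

/-- FTB. -/
theorem t : Pool.Agent.Helper18.FM.S_FTB.{u} := by
  intro n m T G _ R H σ h χ c ψ D Γ C hC κ X s S N φ H' ε Q hL
  have hQk : ∀ j, KEt T R (Q j) := fun j => (hL.seq.tke j).ket
  have hhc : ContinuousOn h T := cofent fun i j => (D.sf.smooth i j).continuousOn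
  have hσc : ContinuousOn σ T := cofent fun i j => (D.sf.holo i j).continuousOn
  have hχc : ContinuousOn χ T := contM D.pf.smooth
  have hYc : ContinuousOn (fun q : Cn n × Matrix (Fin m) (Fin m) ℂ => q.2) (T ×ˢ univ) :=
    continuousOn_snd
  have hh' : ContinuousOn (fun q : Cn n × Matrix (Fin m) (Fin m) ℂ => h q.1) (T ×ˢ univ) :=
    clift hhc
  have hσ' : ContinuousOn (fun q : Cn n × Matrix (Fin m) (Fin m) ℂ => σ q.1) (T ×ˢ univ) :=
    clift hσc
  have hχ' : ContinuousOn (fun q : Cn n × Matrix (Fin m) (Fin m) ℂ => χ q.1) (T ×ˢ univ) :=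
    clift hχc
  have he0 : ∀ j, ∀ x ∈ T, 0 ≤ ε j * (Matrix.trace (χ x * (Q j x)⁻¹)).re := fun j x hx =>
    mul_nonneg (hL.seq.eps j).le (trace_nonneg (D.pf.psd x hx)
      ((hQk j).posDef x hx).posSemidef.inv)
  constructor
  · intro p hp
    obtain ⟨p₁, rfl⟩ := Polynomial.X_dvd_iff.2 (by
      rw [Polynomial.coeff_zero_eq_eval_zero]
      exact hp : p.coeff 0 = 0)
    intro x hx K hK
    have hP : ∀ q : Polynomial ℝ, ContinuousOn
        (fun r : Cn n × Matrix (Fin m) (Fin m) ℂ => Polynomial.aeval r.2 q) (T ×ˢ univ) :=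
      fun q => (caeval q).comp_continuousOn hYc
    have hV : ContinuousOn (fun r : Cn n × Matrix (Fin m) (Fin m) ℂ =>
        σ r.1 * (1 - Polynomial.aeval r.2 (Polynomial.X * p₁))) (T ×ˢ univ) :=
      cmul hσ' (continuousOn_const.sub (hP _))
    have hB : ContinuousOn (fun r : Cn n × Matrix (Fin m) (Fin m) ℂ =>
        σ r.1 * Polynomial.aeval r.2 p₁) (T ×ˢ univ) := cmul hσ' (hP _)
    have hKc : ContinuousOn (fun _ : Cn n × Matrix (Fin m) (Fin m) ℂ => K) (T ×ˢ univ) :=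
      continuousOn_const
    have hY1 := cmul (cmul hV hh') (cstar hV)
    have hM := cmul (cmul hKc hY1) hKc
    have key := lim_le D hL
      (Φ := fun x Y => -(CRV h C ((σ x * (1 - Polynomial.aeval Y (Polynomial.X * p₁)))ᴴ * K *
        (σ x * (1 - Polynomial.aeval Y (Polynomial.X * p₁)))) x +
        (Matrix.trace (χ x * K * (σ x * (1 - Polynomial.aeval Y (Polynomial.X * p₁)) * h x *
        (σ x * (1 - Polynomial.aeval Y (Polynomial.X * p₁)))ᴴ) * K)).re)) ?_ ?_ x hx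
    · linarith
    · exact ((ccrv hhc hC.cC (cmul (cmul (cstar hV) hKc) hV)).add
        (cre (cmul (cmul (cmul hχ' hKc) hY1) hKc))).neg
    · intro C' hCT hCc
      obtain ⟨Kb, hKb⟩ := hL.wl.Zb C' hCT hCc
      obtain ⟨M1, hM10, hM1⟩ := bdm hCT hCc
        (Φ := fun x Y => (χ x).trace.re * (Matrix.trace (Y * h x)).re)
        ((cre hχ').mul (cre (cmul hYc hh'))) Kb
      obtain ⟨M2, hM20, hM2⟩ := bdm hCT hCc
        (Φ := fun x Y => frq (K * (σ x * (1 - Polynomial.aeval Y (Polynomial.X * p₁)) * h x *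
          (σ x * (1 - Polynomial.aeval Y (Polynomial.X * p₁)))ᴴ) * K *
          (σ x * Polynomial.aeval Y p₁))) (cfrq (cmul hM hB)) Kb
      obtain ⟨M3, hM30, hM3⟩ := bdm hCT hCc
        (Φ := fun x Y => (Matrix.trace (Y * h x)).re *
          (Matrix.trace ((σ x * Polynomial.aeval Y p₁)ᴴ *
          (K * (σ x * (1 - Polynomial.aeval Y (Polynomial.X * p₁)) * h x *
          (σ x * (1 - Polynomial.aeval Y (Polynomial.X * p₁)))ᴴ) * K) *
          (σ x * Polynomial.aeval Y p₁))).re)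
        ((cre (cmul hYc hh')).mul (cre (cmul (cmul (cstar hB) hM) hB))) Kb
      refine ⟨2 * (√M1 * √M2), M3, by positivity, hM30, fun j y hy => ?_⟩
      have h1 := pt1 D hC (hCT hy) ((hQk j).posDef y (hCT hy)) (ε j) hK p₁
      have b1 := hM1 y hy _ (hKb j y hy)
      have b2 := hM2 y hy _ (hKb j y hy)
      have b3 := hM3 y hy _ (hKb j y hy)
      have e0 := he0 j y (hCT hy)
      refine h1.trans ?_
      have c1 : √((χ y).trace.re * (Matrix.trace (XS (ε j) σ h (Q j) y * h y)).re *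
          (ε j * (Matrix.trace (χ y * (Q j y)⁻¹)).re)) ≤
          √M1 * √(ε j * (Matrix.trace (χ y * (Q j y)⁻¹)).re) := by
        rw [← Real.sqrt_mul hM10]
        exact Real.sqrt_le_sqrt (mul_le_mul_of_nonneg_right b1 e0)
      have c2 := Real.sqrt_le_sqrt b2
      have c3 := mul_le_mul c1 c2 (Real.sqrt_nonneg _) (by positivity)
      have c4 := mul_le_mul_of_nonneg_left b3 e0
      refine (add_le_add (mul_le_mul_of_nonneg_left c3 (by norm_num : (0 : ℝ) ≤ 2))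
        ((le_of_eq (mul_assoc _ _ _)).trans c4)).trans (le_of_eq ?_)
      ring
  · intro x hx e
    set E : Matrix (Fin 1) (Fin m) ℂ := Matrix.of fun _ a => e a with hE
    have hEY : ∀ (Y : Matrix (Fin m) (Fin m) ℂ) (i : Fin 1) (a : Fin m),
        (E * Y) i a = (e ᵥ* Y) a := by
      intro Y i a
      rw [Matrix.mul_apply]
      rfl
    have hYY : ∀ (Y : Matrix (Fin m) (Fin m) ℂ) (a b : Fin m), ((E * Y)ᴴ * (E * Y)) b a =
        conj ((e ᵥ* Y) b) * (e ᵥ* Y) a := by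
      intro Y a b
      rw [Matrix.mul_apply, Fin.sum_univ_one, Matrix.conjTranspose_apply, hEY, hEY]
      rfl
    have hEc : ContinuousOn (fun _ : Cn n × Matrix (Fin m) (Fin m) ℂ => E) (T ×ˢ univ) :=
      continuousOn_const
    have hEYc := cmul hEc hYc
    have key := lim_le D hL
      (Φ := fun x Y => -(CRV h C ((E * Y)ᴴ * (E * Y)) x)) ?_ ?_ x hx
    · rw [tt_crv h C x (e ᵥ* X x) _ (hYY (X x))]
      exact key
    · exact (ccrv hhc hC.cC (cmul (cstar hEYc) hEYc)).neg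
    · intro C' hCT hCc
      obtain ⟨Kb, hKb⟩ := hL.wl.Zb C' hCT hCc
      obtain ⟨M3, hM30, hM3⟩ := bdm hCT hCc
        (Φ := fun x Y => (Matrix.trace (Y * h x)).re * frq E *
        (Matrix.trace ((E * Y) * h x * (E * Y)ᴴ)).re)
        (((cre (cmul hYc hh')).mul continuousOn_const).mul
          (cre (cmul (cmul hEYc hh') (cstar hEYc)))) Kb
      refine ⟨0, M3, le_rfl, hM30, fun j y hy => ?_⟩
      have h1 := pt2 D hC (hCT hy) ((hQk j).posDef y (hCT hy)) (ε j) E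
      have b3 := hM3 y hy _ (hKb j y hy)
      have c4 := mul_le_mul_of_nonneg_left b3 (he0 j y (hCT hy))
      refine (h1.trans c4).trans (le_of_eq ?_)
      ring

end Pool.Agent.Helper22.FM.FTB
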